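import Mathlib
import Pool.Agent.H27.RC.Stmts

/-!
Project RC, module Q1: the Cuntz lemma.
-/

open scoped ENNReal NNReal InnerProductSpace ComplexOrder
open Filter Topology

noncomputable section

namespace Pool.Agent.H42.RC

open Pool.Agent.H27.RC

theorem q1 : Q1Stmt := by
  intro B _ _ _ a b s κ ha hb hκ hab
  rcases subsingleton_or_nontrivial B with hB | hB
  · exact ⟨0, by rw [Subsingleton.elim ((0 : B) * b * star 0 - a) 0, norm_zero]; exact hκ.le⟩
  set y : B := star s * b * s with hy
  have hy0 : 0 ≤ y := star_left_conjugate_nonneg hb s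
  set Y : B := y + κ • (1 : B) with hY
  have hk : IsStrictlyPositive (κ • (1 : B)) := by
    exact IsStrictlyPositive.smul hκ isStrictlyPositive_one
  have hYs : IsStrictlyPositive Y := by
    rw [hY, add_comm]
    exact hk.add_nonneg hy0
  have haY : a ≤ Y := hab
  have hn := (le_iff_norm_sqrt_mul_rpow a Y ha hYs).1 haY
  set c : B := Y ^ (-(1 / 2) : ℝ) with hc
  have hcs : star c = c := (IsSelfAdjoint.of_nonneg (CFC.rpow_nonneg)).star_eq
  set q : B := CFC.sqrt a with hq
  have hqs : star q = q := (IsSelfAdjoint.of_nonneg (CFC.sqrt_nonneg a)).star_eq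
  have hqq : q * q = a := CFC.sqrt_mul_sqrt_self a
  have hcyc : c * Y * c = 1 := CFC.conjugate_rpow_neg_one_half Y hYs
  refine ⟨q * c * star s, ?_⟩
  have h1 : q * c * star s * b * star (q * c * star s) - a = -(κ • ((q * c) * star (q * c))) := by
    have h2 : c * y * c = 1 - κ • (c * c) := by
      have : c * Y * c = c * y * c + κ • (c * c) := by
        rw [hY]; simp [mul_add, add_mul]
      rw [← hcyc, this]; abel
    have h3 : q * c * star s * b * star (q * c * star s) = q * (c * y * c) * q := by
      simp only [star_mul, star_star, hcs, hqs, hy]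
      noncomm_ring
    rw [h3, h2]
    simp only [star_mul, hcs, hqs, mul_sub, sub_mul, mul_one, hqq, mul_smul_comm, smul_mul_assoc]
    rw [sub_sub_cancel_left]
    simp only [mul_assoc]
  rw [h1, norm_neg, norm_smul, Real.norm_of_nonneg hκ.le, CStarRing.norm_self_mul_star]
  have h0 : 0 ≤ ‖q * c‖ := norm_nonneg _
  nlinarith [mul_nonneg h0 h0, mul_le_mul hn hn h0 zero_le_one]

end Pool.Agent.H42.RC
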