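import Mathlib
import Pool.Agent.H27.RC.Stmts

/-!
Project RC, module R1: the fibre representations of the crossed product.
-/

open scoped ENNReal NNReal InnerProductSpace ComplexOrder
open Filter Topology

noncomputable section

namespace Pool.Agent.H42.RC

open Pool.Agent.H27.RC

/-! ## Weighted pullback operators on `ℓ²` -/

/-- `ℓ²(ι)`. -/
abbrev LL (ι : Type) := lp (fun _ : ι => ℂ) 2

theorem LL_hasSum {ι : Type} (ξ : LL ι) : HasSum (fun i => ‖ξ i‖ ^ 2) (‖ξ‖ ^ 2) := by
  have h2 : (0 : ℝ) < (2 : ℝ≥0∞).toReal := by norm_num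
  have := lp.hasSum_norm h2 ξ
  simpa using this

theorem LL_ext {ι : Type} {ξ η : LL ι} (h : ∀ i, ξ i = η i) : ξ = η := by
  apply lp.ext
  funext i
  exact h i

theorem exists_pull {ι κ : Type} (σ : ι → κ) (hσ : Function.Injective σ) (w : ι → ℂ) (C : ℝ)
    (hC : 0 ≤ C) (hw : ∀ i, ‖w i‖ ≤ C) :
    ∃ T : LL κ →L[ℂ] LL ι, ∀ (ξ : LL κ) (i : ι), T ξ i = w i * ξ (σ i) := by
  have h2 : (0 : ℝ) < (2 : ℝ≥0∞).toReal := by norm_num
  have hbound : ∀ (ξ : LL κ) (i : ι), ‖w i * ξ (σ i)‖ ^ 2 ≤ C ^ 2 * ‖ξ (σ i)‖ ^ 2 := by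
    intro ξ i
    rw [norm_mul, mul_pow]
    exact mul_le_mul_of_nonneg_right (pow_le_pow_left₀ (norm_nonneg _) (hw i) 2) (by positivity)
  have hsum1 : ∀ ξ : LL κ, Summable fun i : ι => C ^ 2 * ‖ξ (σ i)‖ ^ 2 := by
    intro ξ
    exact ((LL_hasSum ξ).summable.comp_injective hσ).mul_left _
  have hsum : ∀ ξ : LL κ, Summable fun i : ι => ‖w i * ξ (σ i)‖ ^ 2 := by
    intro ξ
    exact Summable.of_nonneg_of_le (fun i => by positivity) (hbound ξ) (hsum1 ξ)
  have hmem : ∀ ξ : LL κ, Memℓp (fun i : ι => w i * ξ (σ i)) 2 := by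
    intro ξ
    apply memℓp_gen
    simpa using hsum ξ
  let L : LL κ →ₗ[ℂ] LL ι :=
    { toFun := fun ξ => ⟨fun i => w i * ξ (σ i), hmem ξ⟩
      map_add' := by
        intro ξ η
        apply LL_ext
        intro i
        show w i * (ξ + η : LL κ) (σ i) = w i * ξ (σ i) + w i * η (σ i)
        rw [lp.coeFn_add, Pi.add_apply]
        ring
      map_smul' := by
        intro c ξ
        apply LL_ext
        intro i
        show w i * (c • ξ : LL κ) (σ i) = c • (w i * ξ (σ i))
        rw [lp.coeFn_smul, Pi.smul_apply]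
        simp only [smul_eq_mul]
        ring }
  have hL : ∀ ξ i, L ξ i = w i * ξ (σ i) := fun ξ i => rfl
  refine ⟨L.mkContinuous C ?_, fun ξ i => rfl⟩
  intro ξ
  have h1 : ‖L ξ‖ ^ 2 ≤ (C * ‖ξ‖) ^ 2 := by
    rw [← (LL_hasSum (L ξ)).tsum_eq]
    calc ∑' i, ‖L ξ i‖ ^ 2 ≤ ∑' i, C ^ 2 * ‖ξ (σ i)‖ ^ 2 :=
          Summable.tsum_le_tsum (hbound ξ) (hsum ξ) (hsum1 ξ)
      _ = C ^ 2 * ∑' i, ‖ξ (σ i)‖ ^ 2 := tsum_mul_left
      _ ≤ C ^ 2 * ∑' k, ‖ξ k‖ ^ 2 := by
          apply mul_le_mul_of_nonneg_left _ (by positivity)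
          exact tsum_comp_le_tsum_of_inj (LL_hasSum ξ).summable (fun i => by positivity) hσ
      _ = (C * ‖ξ‖) ^ 2 := by rw [(LL_hasSum ξ).tsum_eq]; ring
  exact (pow_le_pow_iff_left₀ (norm_nonneg _) (by positivity) two_ne_zero).1 h1

/-- A chosen weighted pullback operator. -/
def pull {ι κ : Type} (σ : ι → κ) (hσ : Function.Injective σ) (w : ι → ℂ) (C : ℝ)
    (hC : 0 ≤ C) (hw : ∀ i, ‖w i‖ ≤ C) : LL κ →L[ℂ] LL ι :=
  Classical.choose (exists_pull σ hσ w C hC hw)

theorem pull_apply {ι κ : Type} (σ : ι → κ) (hσ : Function.Injective σ) (w : ι → ℂ) (C : ℝ)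
    (hC : 0 ≤ C) (hw : ∀ i, ‖w i‖ ≤ C) (ξ : LL κ) (i : ι) :
    pull σ hσ w C hC hw ξ i = w i * ξ (σ i) :=
  Classical.choose_spec (exists_pull σ hσ w C hC hw) ξ i

/-- The basis vector (classical decidability). -/
def sg {ι : Type} (p : ι) : LL ι :=
  letI : DecidableEq ι := Classical.decEq ι
  lp.single 2 p (1 : ℂ)

open Classical in
theorem sg_apply {ι : Type} (p q : ι) : (sg p : LL ι) q = if q = p then 1 else 0 := by
  unfold sg
  rw [lp.single_apply]
  by_cases h : q = p
  · subst h; simp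
  · simp [h]

theorem sg_eq {ι : Type} [inst : DecidableEq ι] (p : ι) :
    (lp.single 2 p (1 : ℂ) : LL ι) = sg p := by
  have h : inst = Classical.decEq ι := Subsingleton.elim _ _
  subst h
  rfl

theorem inner_sg {ι : Type} (p : ι) (ξ : LL ι) : ⟪sg p, ξ⟫_ℂ = ξ p := by
  unfold sg
  let _ : DecidableEq ι := Classical.decEq ι
  rw [lp.inner_single_left]
  simp

/-- An operator which kills the basis vectors is zero. -/
theorem op_ext {ι κ : Type} {S T : LL ι →L[ℂ] LL κ} (h : ∀ p q, S (sg p) q = T (sg p) q) :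
    S = T := by
  let _ : DecidableEq ι := Classical.decEq ι
  apply lp.ext_continuousLinearMap (𝕜 := ℂ) (by norm_num : (2 : ℝ≥0∞) ≠ ⊤)
  intro i
  ext1
  apply LL_ext
  intro q
  have := h i q
  unfold sg at this
  simpa using this

theorem adj_apply {ι κ : Type} (T : LL ι →L[ℂ] LL κ) (η : LL κ) (p : ι) :
    ContinuousLinearMap.adjoint T η p = ⟪T (sg p), η⟫_ℂ := by
  rw [← ContinuousLinearMap.adjoint_inner_right, inner_sg]

/-! ## The fibres -/

section fibres

variable {X : Type}

/-- Restriction to the fibre over `x`. -/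
def resF (x : X) : LL (ℤ × X) →L[ℂ] LL ℤ :=
  pull (fun i : ℤ => (i, x)) (fun _ _ hij => (Prod.ext_iff.1 hij).1) (fun _ => 1) 1 zero_le_one
    (fun _ => by simp)

theorem resF_apply (x : X) (ξ : LL (ℤ × X)) (i : ℤ) : resF x ξ i = ξ (i, x) := by
  unfold resF
  rw [pull_apply, one_mul]

open Classical in
theorem resF_sg (x : X) (p : ℤ × X) :
    resF x (sg p) = if p.2 = x then sg p.1 else 0 := by
  apply LL_ext
  intro i
  rw [resF_apply, sg_apply]
  by_cases h : p.2 = x
  · rw [if_pos h, sg_apply]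
    subst h
    simp [Prod.ext_iff]
  · rw [if_neg h, if_neg]
    · simp
    · intro h'
      apply h
      rw [← h']

open Classical in
theorem resF_adj_apply (x : X) (η : LL ℤ) (p : ℤ × X) :
    ContinuousLinearMap.adjoint (resF x) η p = if p.2 = x then η p.1 else 0 := by
  rw [adj_apply, resF_sg]
  by_cases h : p.2 = x
  · rw [if_pos h, if_pos h, inner_sg]
  · rw [if_neg h, if_neg h, inner_zero_left]

theorem resF_comp_adj (x : X) :
    resF x ∘L ContinuousLinearMap.adjoint (resF x) = 1 := by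
  ext1 η
  apply LL_ext
  intro i
  rw [ContinuousLinearMap.comp_apply, resF_apply, resF_adj_apply]
  simp

theorem resF_adj_sg (x : X) (j : ℤ) :
    ContinuousLinearMap.adjoint (resF x) (sg j) = sg (j, x) := by
  classical
  apply LL_ext
  intro p
  rw [resF_adj_apply, sg_apply, sg_apply]
  by_cases h : p.2 = x
  · by_cases h' : p.1 = j
    · simp [h, h', Prod.ext_iff]
    · simp [h, h', Prod.ext_iff]
  · simp [h, Prod.ext_iff]

/-- The projection onto the fibre over `x`. -/
def prF (x : X) : LL (ℤ × X) →L[ℂ] LL (ℤ × X) :=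
  ContinuousLinearMap.adjoint (resF x) ∘L resF x

open Classical in
theorem prF_apply (x : X) (ξ : LL (ℤ × X)) (p : ℤ × X) :
    prF x ξ p = if p.2 = x then ξ p else 0 := by
  unfold prF
  rw [ContinuousLinearMap.comp_apply, resF_adj_apply, resF_apply]
  by_cases h : p.2 = x
  · rw [if_pos h, if_pos h, ← h]
  · rw [if_neg h, if_neg h]

theorem star_prF (x : X) : star (prF x) = prF x := by
  rw [ContinuousLinearMap.star_eq_adjoint]
  unfold prF
  rw [ContinuousLinearMap.adjoint_comp, ContinuousLinearMap.adjoint_adjoint]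

end fibres

section crossed

variable {X : Type} [TopologicalSpace X] (h : X ≃ₜ X)

theorem gen_comm (x : X) (a : L2 X →L[ℂ] L2 X) (ha : a ∈ crossedGen h) :
    prF x * a = a * prF x := by
  classical
  rcases ha with ⟨f, hf⟩ | hu
  · ext1 ξ
    apply LL_ext
    rintro ⟨n, y⟩
    show prF x (a ξ) (n, y) = a (prF x ξ) (n, y)
    rw [hf, prF_apply, prF_apply, hf]
    split_ifs <;> simp
  · ext1 ξ
    apply LL_ext
    rintro ⟨n, y⟩
    show prF x (a ξ) (n, y) = a (prF x ξ) (n, y)
    rw [hu, prF_apply, prF_apply, hu]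

theorem sub_comm (x : X) (a : L2 X →L[ℂ] L2 X) (ha : a ∈ crossedSub h) :
    prF x * a = a * prF x := by
  have hle : crossedSub h ≤ StarSubalgebra.centralizer ℂ (Set.range (prF (X := X))) := by
    apply StarSubalgebra.topologicalClosure_minimal
    · rw [StarAlgebra.adjoin_le_iff]
      intro b hb
      rw [SetLike.mem_coe, StarSubalgebra.mem_centralizer_iff]
      rintro _ ⟨y, rfl⟩
      rw [star_prF]
      exact ⟨gen_comm h y b hb, gen_comm h y b hb⟩
    · rw [StarSubalgebra.coe_centralizer]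
      exact Set.isClosed_centralizer _
  have := hle ha
  rw [StarSubalgebra.mem_centralizer_iff] at this
  exact (this _ ⟨x, rfl⟩).1

/-- The fibre representation. -/
def rho (x : X) : Crossed h →⋆ₐ[ℂ] (LL ℤ →L[ℂ] LL ℤ) where
  toFun a := resF x ∘L (cop a ∘L ContinuousLinearMap.adjoint (resF x))
  map_one' := by
    rw [cop_one]
    exact resF_comp_adj x
  map_mul' := by
    intro a b
    rw [cop_mul]
    have hc := sub_comm h x (cop b) (cop_mem b)
    have h1 : resF x ∘L prF x = resF x := by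
      unfold prF
      rw [← ContinuousLinearMap.comp_assoc, resF_comp_adj]
      rfl
    have hc' := sub_comm h x (cop a) (cop_mem a)
    ext1 ξ
    show resF x (cop a (cop b (ContinuousLinearMap.adjoint (resF x) ξ))) =
      resF x (cop a (ContinuousLinearMap.adjoint (resF x) (resF x (cop b
        (ContinuousLinearMap.adjoint (resF x) ξ)))))
    have h2 : ∀ ζ, cop a (ContinuousLinearMap.adjoint (resF x) (resF x ζ)) =
        prF x (cop a ζ) := by
      intro ζ
      exact (DFunLike.congr_fun hc' ζ).symm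
    rw [h2]
    exact (DFunLike.congr_fun h1 _).symm
  map_zero' := by
    rw [cop_zero]
    simp
  map_add' := by
    intro a b
    rw [cop_add]
    ext1 ξ
    simp
  commutes' := by
    intro c
    rw [cop_algebraMap]
    ext1 ξ
    have := DFunLike.congr_fun (resF_comp_adj x) ξ
    simp only [ContinuousLinearMap.comp_apply] at this
    simp [Algebra.algebraMap_eq_smul_one, this]
  map_star' := by
    intro a
    rw [cop_star, ContinuousLinearMap.star_eq_adjoint, ContinuousLinearMap.star_eq_adjoint,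
      ContinuousLinearMap.adjoint_comp, ContinuousLinearMap.adjoint_comp,
      ContinuousLinearMap.adjoint_adjoint, ContinuousLinearMap.comp_assoc]

theorem ent_eq (a : Crossed h) (x : X) (i j : ℤ) : ent a x i j = cop a (sg (j, x)) (i, x) := by
  exact congrArg (fun v : LL (ℤ × X) => cop a v (i, x))
    (@sg_eq _ (@instDecidableEqProd _ _ _ (Classical.decEq X)) (j, x))

theorem rho_sg (x : X) (a : Crossed h) (i j : ℤ) : rho h x a (sg j) i = ent a x i j := by
  show resF x (cop a (ContinuousLinearMap.adjoint (resF x) (sg j))) i = _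
  rw [resF_adj_sg, resF_apply, ent_eq]

theorem faithful (a : Crossed h) (ha : ∀ x i j, ent a x i j = 0) : a = 0 := by
  classical
  apply cop_inj
  rw [cop_zero]
  apply op_ext
  rintro ⟨j, x⟩ ⟨i, y⟩
  show cop a (sg (j, x)) (i, y) = 0
  have hp : prF x (sg (j, x)) = (sg (j, x) : LL (ℤ × X)) := by
    apply LL_ext
    intro p
    rw [prF_apply, sg_apply]
    by_cases h1 : p = (j, x)
    · subst h1; simp
    · simp [h1]
  have hc := DFunLike.congr_fun (sub_comm h x (cop a) (cop_mem a)) (sg (j, x))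
  have hc' : prF x (cop a (sg (j, x))) = cop a (sg (j, x)) := by
    calc prF x (cop a (sg (j, x))) = cop a (prF x (sg (j, x))) := hc
      _ = _ := by rw [hp]
  rw [← hc', prF_apply]
  by_cases hy : y = x
  · rw [if_pos hy]
    subst hy
    rw [← ent_eq]
    exact ha y i j
  · rw [if_neg hy]

/-! ## Band operators -/

theorem zpow_apply_add (m k : ℤ) (x : X) : (h ^ (m + k)) x = (h ^ k) ((h ^ m) x) := by
  rw [add_comm, zpow_add, Homeomorph.mul_apply]

variable [CompactSpace X]

/-- The operator `f u^k`. -/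
def fu (f : C(X, ℂ)) (k : ℤ) : L2 X →L[ℂ] L2 X :=
  pull (fun p : ℤ × X => (p.1 - k, p.2))
    (fun p q hpq => by
      have h1 := (Prod.ext_iff.1 hpq).1
      have h2 := (Prod.ext_iff.1 hpq).2
      simp only at h1 h2
      exact Prod.ext (by omega) h2)
    (fun p => f ((h ^ p.1) p.2)) ‖f‖ (norm_nonneg _) (fun p => f.norm_coe_le_norm _)

theorem fu_apply (f : C(X, ℂ)) (k : ℤ) (ξ : L2 X) (p : ℤ × X) :
    fu h f k ξ p = f ((h ^ p.1) p.2) * ξ (p.1 - k, p.2) := by
  unfold fu
  rw [pull_apply]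

theorem fu_mul (f g : C(X, ℂ)) (k l : ℤ) :
    fu h f k * fu h g l =
      fu h (f * g.comp ((h ^ (-k) : X ≃ₜ X) : C(X, X))) (k + l) := by
  ext1 ξ
  apply LL_ext
  intro p
  show fu h f k (fu h g l ξ) p = _
  rw [fu_apply, fu_apply, fu_apply]
  simp only [ContinuousMap.mul_apply, ContinuousMap.comp_apply]
  rw [show ((h ^ (p.1 - k)) p.2) = (h ^ (-k)) ((h ^ p.1) p.2) from by
    rw [← zpow_apply_add]; rfl]
  rw [show p.1 - k - l = p.1 - (k + l) by ring]
  simp only [ContinuousMap.coe_coe]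
  ring

theorem star_fu (f : C(X, ℂ)) (k : ℤ) :
    star (fu h f k) = fu h ((star f).comp ((h ^ k : X ≃ₜ X) : C(X, X))) (-k) := by
  classical
  apply op_ext
  intro q p
  rw [ContinuousLinearMap.star_eq_adjoint, adj_apply, fu_apply, ← inner_conj_symm, inner_sg,
    fu_apply, sg_apply, sg_apply]
  by_cases hq : q = (p.1 + k, p.2)
  · subst hq
    simp [zpow_apply_add]
  · have h1 : (q.1 - k, q.2) ≠ p := by
      intro h1
      apply hq
      rw [← h1]
      simp
    have h2 : (p.1 - -k, p.2) ≠ q := by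
      intro h2
      apply hq
      rw [← h2]
      simp
    rw [if_neg h1, if_neg h2]
    simp

theorem fu_zero_mem (f : C(X, ℂ)) : fu h f 0 ∈ crossedSub h := by
  apply StarSubalgebra.le_topologicalClosure
  apply StarAlgebra.subset_adjoin
  left
  refine ⟨f, ?_⟩
  intro ξ n x
  rw [fu_apply]
  simp

theorem fu_one_one_mem : fu h 1 1 ∈ crossedSub h := by
  apply StarSubalgebra.le_topologicalClosure
  apply StarAlgebra.subset_adjoin
  right
  intro ξ n x
  rw [fu_apply]
  simp

theorem fu_one_mem (k : ℤ) : fu h 1 k ∈ crossedSub h := by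
  have hneg : fu h 1 (-1) ∈ crossedSub h := by
    have := star_mem (fu_one_one_mem h)
    rw [star_fu] at this
    convert this using 1
    congr 1
    ext x
    simp
  induction k using Int.induction_on with
  | zero => exact fu_zero_mem h 1
  | succ i hi =>
    have := mul_mem hi (fu_one_one_mem h)
    rw [fu_mul] at this
    convert this using 1
    congr 1
    ext x
    simp
  | pred i hi =>
    have := mul_mem hi hneg
    rw [fu_mul, ← sub_eq_add_neg] at this
    convert this using 1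
    congr 1
    ext x
    simp

theorem fu_mem (f : C(X, ℂ)) (k : ℤ) : fu h f k ∈ crossedSub h := by
  have := mul_mem (fu_zero_mem h f) (fu_one_mem h k)
  rw [fu_mul] at this
  convert this using 1
  rw [zero_add]
  congr 1
  ext x
  simp

theorem fu_entry (f : C(X, ℂ)) (k : ℤ) (x : X) (i j : ℤ) :
    fu h f k (sg (j, x)) (i, x) = if i - j = k then f ((h ^ i) x) else 0 := by
  classical
  rw [fu_apply, sg_apply]
  by_cases hk : i - j = k
  · rw [if_pos hk, if_pos (by simp only [Prod.mk.injEq, and_true]; omega), mul_one]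
  · rw [if_neg hk, if_neg (by simp only [Prod.mk.injEq, and_true]; omega), mul_zero]

/-- The set of the operators `f u^k`. -/
def gens : Set (L2 X →L[ℂ] L2 X) := {T | ∃ (f : C(X, ℂ)) (k : ℤ), T = fu h f k}

theorem adjoin_le_span (T : L2 X →L[ℂ] L2 X) (hT : T ∈ StarAlgebra.adjoin ℂ (crossedGen h)) :
    T ∈ Submodule.span ℂ (gens h) := by
  induction hT using StarAlgebra.adjoin_induction with
  | mem T hT =>
    apply Submodule.subset_span
    rcases hT with ⟨f, hf⟩ | hu
    · refine ⟨f, 0, ?_⟩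
      ext1 ξ
      apply LL_ext
      rintro ⟨n, x⟩
      rw [hf, fu_apply]
      simp
    · refine ⟨1, 1, ?_⟩
      ext1 ξ
      apply LL_ext
      rintro ⟨n, x⟩
      rw [hu, fu_apply]
      simp
  | algebraMap c =>
    apply Submodule.subset_span
    refine ⟨ContinuousMap.const X c, 0, ?_⟩
    ext1 ξ
    apply LL_ext
    rintro ⟨n, x⟩
    rw [fu_apply, Algebra.algebraMap_eq_smul_one]
    simp
  | add S T _ _ hS hT => exact Submodule.add_mem _ hS hT
  | mul S T _ _ hS hT =>
    have hST := Submodule.mul_mem_mul hS hT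
    rw [Submodule.span_mul_span] at hST
    refine Submodule.span_mono ?_ hST
    rintro _ ⟨_, ⟨f, k, rfl⟩, _, ⟨g, l, rfl⟩, rfl⟩
    exact ⟨_, _, fu_mul h f g k l⟩
  | star S hm hS =>
    clear hm
    induction hS using Submodule.span_induction with
    | mem x hx =>
      obtain ⟨f, k, rfl⟩ := hx
      apply Submodule.subset_span
      exact ⟨_, _, star_fu h f k⟩
    | zero => rw [star_zero]; exact Submodule.zero_mem _
    | add x y _ _ hx hy => rw [star_add]; exact Submodule.add_mem _ hx hy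
    | smul c x _ hx => rw [star_smul]; exact Submodule.smul_mem _ _ hx

theorem span_band (T : L2 X →L[ℂ] L2 X) (hT : T ∈ Submodule.span ℂ (gens h)) :
    ∃ (r : ℕ) (c : ℤ → C(X, ℂ)), ∀ x i j,
      T (sg (j, x)) (i, x) = if |i - j| ≤ (r : ℤ) then c (i - j) ((h ^ i) x) else 0 := by
  classical
  induction hT using Submodule.span_induction with
  | mem T hT =>
    obtain ⟨f, k, rfl⟩ := hT
    refine ⟨k.natAbs, fun m => if m = k then f else 0, ?_⟩
    intro x i j
    rw [fu_entry]
    by_cases hk : i - j = k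
    · rw [if_pos hk, if_pos (by rw [hk]; simp)]
      simp only [if_pos hk]
    · simp only [if_neg hk]
      simp
  | zero =>
    refine ⟨0, fun _ => 0, ?_⟩
    intro x i j
    simp
  | add S T _ _ hS hT =>
    obtain ⟨r₁, c₁, h₁⟩ := hS
    obtain ⟨r₂, c₂, h₂⟩ := hT
    refine ⟨max r₁ r₂, fun m => (if |m| ≤ (r₁ : ℤ) then c₁ m else 0) +
      (if |m| ≤ (r₂ : ℤ) then c₂ m else 0), ?_⟩
    intro x i j
    have h3 : (S + T) (sg (j, x)) (i, x) = S (sg (j, x)) (i, x) + T (sg (j, x)) (i, x) := by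
      simp
    rw [h3, h₁, h₂]
    by_cases hm : |i - j| ≤ ((max r₁ r₂ : ℕ) : ℤ)
    · rw [if_pos hm]
      by_cases e1 : |i - j| ≤ (r₁ : ℤ) <;> by_cases e2 : |i - j| ≤ (r₂ : ℤ) <;> simp [e1, e2]
    · have hm' : ¬ |i - j| ≤ (r₁ : ℤ) ∧ ¬ |i - j| ≤ (r₂ : ℤ) := by
        push Not at hm ⊢
        constructor <;> [skip; skip] <;> push_cast at hm <;>
          first | exact lt_of_le_of_lt (le_max_left _ _) hm
                | exact lt_of_le_of_lt (le_max_right _ _) hm
      rw [if_neg hm, if_neg hm'.1, if_neg hm'.2, add_zero]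
  | smul a T _ hT =>
    obtain ⟨r, c, h₁⟩ := hT
    refine ⟨r, fun m => a • c m, ?_⟩
    intro x i j
    have h3 : (a • T) (sg (j, x)) (i, x) = a * T (sg (j, x)) (i, x) := by
      simp
    rw [h3, h₁]
    split_ifs <;> simp

theorem r1 : R1Stmt := by
  intro X _ _ h
  refine ⟨⟨rho h, ?_⟩, ?_, ?_, ?_⟩
  · intro x a i j
    rw [sg_eq]
    exact rho_sg h x a i j
  · exact faithful h
  · intro f k
    obtain ⟨a, ha⟩ := exists_cop_eq _ (fu_mem h f k)
    refine ⟨a, ?_⟩
    intro x i j
    rw [ent_eq, ha, fu_entry]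
  · intro a η hη
    have hcl : cop a ∈ closure ((StarAlgebra.adjoin ℂ (crossedGen h) : StarSubalgebra ℂ _) :
        Set (L2 X →L[ℂ] L2 X)) := cop_mem a
    rw [Metric.mem_closure_iff] at hcl
    obtain ⟨T, hT, hd⟩ := hcl η hη
    obtain ⟨b, hb⟩ := exists_cop_eq T (StarSubalgebra.le_topologicalClosure _ hT)
    obtain ⟨r, c, hc⟩ := span_band h T (adjoin_le_span h T hT)
    refine ⟨b, r, c, ?_, ?_⟩
    · rw [← norm_cop, cop_sub, hb, ← dist_eq_norm]
      exact hd.le
    · intro x i j
      rw [ent_eq, hb]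
      exact hc x i j

end crossed

end Pool.Agent.H42.RC
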